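import Mathlib.LinearAlgebra.Matrix.Determinant.Basic
import Mathlib.Data.ZMod.Basic
import Mathlib.Tactic

/-!
# Determinants modulo `31` by elimination on packed rows
-/

set_option autoImplicit false

namespace Helper63.Cube7

/-- the packed row with `n` fields of 48 bits -/
def pkv : (n : ℕ) → (Fin n → ℕ) → ℕ
  | 0, _ => 0
  | n+1, x => x 0 + 281474976710656 * pkv n (fun j => x j.succ)

/-- leading field modulo `31` -/
def lead (r : ℕ) : ℕ := Nat.mod (Nat.mod r 281474976710656) 31

/-- strict evaluation -/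
def force (x : ℕ) (f : ℕ → ℕ) : ℕ := Nat.rec (f 0) (fun n _ => f (Nat.succ n)) x

lemma force_eq (x : ℕ) (f : ℕ → ℕ) : force x f = f x := by
  cases x <;> rfl

/-- case distinction on zero -/
def ifz (x a : ℕ) (b : ℕ) : ℕ := Nat.rec a (fun _ _ => b) x

lemma ifz_eq (x a b : ℕ) : ifz x a b = if x = 0 then a else b := by
  cases x <;> simp [ifz]

/-- strict map in continuation form -/
def mapK (f : ℕ → ℕ) (l : List ℕ) : (List ℕ → ℕ) → ℕ :=
  List.rec (fun k => k []) (fun r _ ih k => force (f r) fun v => ih fun t => k (v :: t)) l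

lemma mapK_eq (f : ℕ → ℕ) (l : List ℕ) (k : List ℕ → ℕ) : mapK f l k = k (l.map f) := by
  induction l generalizing k with
  | nil => rfl
  | cons r l ih =>
    show force (f r) (fun v => mapK f l fun t => k (v :: t)) = _
    rw [force_eq, ih]
    rfl

/-- first row with nonzero leading field, or zero -/
def findr (l : List ℕ) : ℕ :=
  List.rec 0 (fun r _ ih => ifz (lead r) ih r) l

lemma findr_cons (r : ℕ) (l : List ℕ) : findr (r :: l) = if lead r = 0 then findr l else r := by
  show ifz (lead r) (findr l) r = _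
  rw [ifz_eq]

lemma findr_spec (l : List ℕ) : (findr l = 0 ∧ ∀ r ∈ l, lead r = 0) ∨
    (findr l ∈ l ∧ lead (findr l) ≠ 0) := by
  induction l with
  | nil => exact Or.inl ⟨rfl, by simp⟩
  | cons r l ih =>
    rw [findr_cons]
    by_cases h : lead r = 0
    · rw [if_pos h]
      rcases ih with ih | ih
      · exact Or.inl ⟨ih.1, by simpa [h] using ih.2⟩
      · exact Or.inr ⟨List.mem_cons_of_mem _ ih.1, ih.2⟩
    · rw [if_neg h]
      exact Or.inr ⟨List.mem_cons_self, h⟩

/-- inverses modulo `31`, five bits each -/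
def invT : ℕ := 0x79eab98b6de06e94d62ed18d8f0e44eb28ac020

/-- inverse modulo `31` -/
def inv31 (a : ℕ) : ℕ := Nat.mod (Nat.shiftRight invT (Nat.mul 5 a)) 32

/-- elimination step on a row -/
def rowS (p i r : ℕ) : ℕ :=
  Nat.shiftRight (Nat.add r (Nat.mul (Nat.mod (Nat.mul (Nat.sub 31 (lead r)) i) 31) p)) 48

/-- the determinant modulo `31` of the packed square matrix -/
def elim (n : ℕ) : List ℕ → ℕ :=
  Nat.rec (fun _ => 1) (fun _ ih l => List.rec 1 (fun p t _ =>
    force (ifz (lead p) (Nat.add p (findr t)) p) fun p' =>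
    force (lead p') fun a => ifz a 0
      (force (inv31 a) fun i => mapK (rowS p' i) t fun t' => Nat.mod (Nat.mul a (ih t')) 31)) l) n

lemma elim_succ (n p : ℕ) (t : List ℕ) : elim (n+1) (p :: t) =
    if lead (if lead p = 0 then p + findr t else p) = 0 then 0 else
      (lead (if lead p = 0 then p + findr t else p) * elim n (t.map (rowS
        (if lead p = 0 then p + findr t else p)
        (inv31 (lead (if lead p = 0 then p + findr t else p)))))) % 31 := by
  show (force (ifz (lead p) (Nat.add p (findr t)) p) fun p' =>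
    force (lead p') fun a => ifz a 0
      (force (inv31 a) fun i => mapK (rowS p' i) t fun t' => Nat.mod (Nat.mul a (elim n t')) 31)) = _
  simp only [force_eq, ifz_eq, mapK_eq]
  rfl

lemma lead_pkv {n : ℕ} {x : Fin (n+1) → ℕ} (h : x 0 < 281474976710656) :
    lead (pkv (n+1) x) = x 0 % 31 := by
  show (x 0 + 281474976710656 * pkv n (fun j => x j.succ)) % 281474976710656 % 31 = _
  rw [Nat.add_mul_mod_self_left, Nat.mod_eq_of_lt h]

lemma pkv_add_mul : ∀ (n : ℕ) (x y : Fin n → ℕ) (c : ℕ),
    pkv n x + c * pkv n y = pkv n (fun j => x j + c * y j)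
  | 0, _, _, _ => rfl
  | n+1, x, y, c => by
    show x 0 + 281474976710656 * pkv n (fun j => x j.succ) +
      c * (y 0 + 281474976710656 * pkv n (fun j => y j.succ)) = x 0 + c * y 0 +
      281474976710656 * pkv n (fun j => x j.succ + c * y j.succ)
    rw [← pkv_add_mul n (fun j => x j.succ) (fun j => y j.succ) c]
    ring

lemma pkv_zero : ∀ n : ℕ, pkv n (fun _ => 0) = 0
  | 0 => rfl
  | n+1 => by
    show 0 + 281474976710656 * pkv n (fun _ => 0) = 0
    rw [pkv_zero n]

lemma rowS_pkv {n : ℕ} {x y : Fin (n+1) → ℕ} {i : ℕ} (hx : x 0 < 281474976710656)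
    (h : x 0 + (31 - x 0 % 31) * i % 31 * y 0 < 281474976710656) :
    rowS (pkv (n+1) y) i (pkv (n+1) x) =
      pkv n (fun j => x j.succ + (31 - x 0 % 31) * i % 31 * y j.succ) := by
  show (pkv (n+1) x + (31 - lead (pkv (n+1) x)) * i % 31 * pkv (n+1) y) >>> 48 = _
  rw [lead_pkv hx, pkv_add_mul, Nat.shiftRight_eq_div_pow]
  show (x 0 + (31 - x 0 % 31) * i % 31 * y 0 + 281474976710656 *
    pkv n (fun j => x j.succ + (31 - x 0 % 31) * i % 31 * y j.succ)) / 2 ^ 48 = _
  omega

lemma inv31_spec : ∀ a < 31, a ≠ 0 → (a * inv31 a) % 31 = 1 ∧ inv31 a < 31 := by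
  decide +kernel

/-- elimination in the first column -/
lemma det_elim {n : ℕ} {R : Type*} [CommRing R] (A : Matrix (Fin (n+1)) (Fin (n+1)) R)
    (c : Fin n → R) (h : ∀ i, A i.succ 0 + c i * A 0 0 = 0) :
    A.det = A 0 0 * (Matrix.of fun i j => A i.succ j.succ + c i * A 0 j.succ).det := by
  have h1 : (Matrix.of fun (i : Fin (n+1)) (j : Fin (n+1)) =>
      A i j + (Fin.cons 0 c : Fin (n+1) → R) i * A 0 j).det = A.det := by
    refine Matrix.det_eq_of_forall_row_eq_smul_add_const (Fin.cons 0 c) 0 (by simp) ?_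
    intro i j
    simp
  rw [← h1, Matrix.det_succ_column_zero, Fin.sum_univ_succ]
  have h2 : ∀ i : Fin n, A i.succ 0 + c i * A 0 0 = 0 := h
  simp only [Matrix.of_apply, Fin.cons_zero, Fin.cons_succ, h2, zero_mul, mul_zero, add_zero,
    Finset.sum_const_zero, Fin.val_zero, pow_zero, one_mul]
  congr 1

/-- **the elimination computes the determinant modulo `31`** -/
theorem elim_spec : ∀ (n : ℕ) (x : Fin n → Fin n → ℕ) (B : ℕ), (∀ i j, x i j ≤ B) →
    B * 61 ^ n < 281474976710656 →
    (Matrix.of fun i j => (x i j : ZMod 31)).det = (elim n (List.ofFn fun i => pkv n (x i)) : ZMod 31)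
  | 0, x, B, hx, hB => by
    rw [Matrix.det_fin_zero]
    show (1 : ZMod 31) = ((1 : ℕ) : ZMod 31)
    rw [Nat.cast_one]
  | n+1, x, B, hx, hB => by
    have hBn : B * 61 < 281474976710656 := by
      refine lt_of_le_of_lt ?_ hB
      rw [pow_succ]
      have : 1 ≤ 61 ^ n := Nat.one_le_pow _ _ (by norm_num)
      nlinarith [Nat.mul_le_mul_left (B * 61) this]
    have hlt : ∀ i j, x i j < 281474976710656 := fun i j => by have := hx i j; omega
    rw [List.ofFn_succ, elim_succ]
    set t := List.ofFn fun i : Fin n => pkv (n+1) (x i.succ) with ht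
    -- the pivot row
    obtain ⟨y, hy1, hy2, hy3, hy4⟩ : ∃ y : Fin (n+1) → ℕ, (∀ j, y j ≤ 2 * B) ∧
        (if lead (pkv (n+1) (x 0)) = 0 then pkv (n+1) (x 0) + findr t else pkv (n+1) (x 0)) =
          pkv (n+1) y ∧
        (Matrix.of fun i j => (x i j : ZMod 31)).det =
          (Matrix.of fun i j => ((Fin.cons y (fun i : Fin n => x i.succ) :
            Fin (n+1) → Fin (n+1) → ℕ) i j : ZMod 31)).det ∧
        (y 0 % 31 = 0 → (Matrix.of fun i j => (x i j : ZMod 31)).det = 0) := by
      have hself : (fun i j => (x i j : ZMod 31)) = fun i j => ((Fin.cons (x 0)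
          (fun i : Fin n => x i.succ) : Fin (n+1) → Fin (n+1) → ℕ) i j : ZMod 31) := by
        funext i j
        refine Fin.cases ?_ (fun i => ?_) i <;> simp
      by_cases h0 : lead (pkv (n+1) (x 0)) = 0
      · rw [if_pos h0]
        rw [lead_pkv (hlt 0 0)] at h0
        rcases findr_spec t with ⟨h1, h2⟩ | ⟨h1, h2⟩
        · refine ⟨x 0, fun j => by have := hx 0 j; omega, by rw [h1, add_zero], ?_, fun _ => ?_⟩
          · rw [← hself]
          · refine Matrix.det_eq_zero_of_column_eq_zero 0 fun i => ?_
            rw [Matrix.of_apply]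
            refine Fin.cases ?_ (fun i => ?_) i
            · exact (ZMod.natCast_eq_zero_iff _ _).2 (Nat.dvd_of_mod_eq_zero h0)
            · have h3 := h2 (pkv (n+1) (x i.succ)) (by rw [ht]; exact List.mem_ofFn.2 ⟨i, rfl⟩)
              rw [lead_pkv (hlt _ 0)] at h3
              exact (ZMod.natCast_eq_zero_iff _ _).2 (Nat.dvd_of_mod_eq_zero h3)
        · rw [ht] at h1
          obtain ⟨i0, hi0⟩ := List.mem_ofFn.1 h1
          rw [← ht] at hi0
          have hi0' : findr t = pkv (n+1) (x i0.succ) := hi0.symm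
          rw [hi0', lead_pkv (hlt _ 0)] at h2
          refine ⟨fun j => x 0 j + 1 * x i0.succ j, fun j => ?_, ?_, ?_, fun h3 => ?_⟩
          · have h5 := hx 0 j
            have h6 := hx i0.succ j
            show x 0 j + 1 * x i0.succ j ≤ 2 * B
            omega
          · rw [← pkv_add_mul, one_mul, hi0']
          · have e := Matrix.det_updateRow_add_self (Matrix.of fun i j => (x i j : ZMod 31))
              (i := 0) (j := i0.succ) (Fin.succ_ne_zero i0).symm
            rw [← e]
            congr 1
            ext i j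
            refine Fin.cases ?_ (fun i => ?_) i
            · simp
            · rw [Matrix.updateRow_ne (Fin.succ_ne_zero i)]
              simp
          · exfalso
            have h4 : (x 0 0 + 1 * x i0.succ 0) % 31 = 0 := h3
            omega
      · rw [if_neg h0]
        rw [lead_pkv (hlt 0 0)] at h0
        exact ⟨x 0, fun j => by have := hx 0 j; omega, rfl, by rw [← hself], fun h => absurd h h0⟩
    rw [hy2]
    have hy0 : y 0 < 281474976710656 := by have := hy1 0; omega
    rw [lead_pkv hy0]
    by_cases ha : y 0 % 31 = 0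
    · rw [if_pos ha, hy4 ha, Nat.cast_zero]
    · rw [if_neg ha, hy3]
      obtain ⟨hi1, hi2⟩ := inv31_spec (y 0 % 31) (Nat.mod_lt _ (by norm_num)) ha
      set iv := inv31 (y 0 % 31) with hiv
      set c : Fin n → ℕ := fun i => (31 - x i.succ 0 % 31) * iv % 31 with hc
      have hc30 : ∀ i, c i ≤ 30 := fun i => by
        have : c i < 31 := Nat.mod_lt _ (by norm_num)
        omega
      have hmap : t.map (rowS (pkv (n+1) y) iv) = List.ofFn fun i : Fin n => pkv n
          (fun j => x i.succ j.succ + c i * y j.succ) := by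
        rw [ht, List.map_ofFn]
        congr 1
        funext i
        refine rowS_pkv (hlt _ 0) ?_
        have h1 := hc30 i
        have h2 := hx i.succ 0
        have h3 := hy1 0
        have h4 : c i * y 0 ≤ 30 * (2 * B) := Nat.mul_le_mul h1 h3
        show x i.succ 0 + c i * y 0 < _
        omega
      rw [hmap]
      have ih := elim_spec n (fun i j => x i.succ j.succ + c i * y j.succ) (B * 61) (fun i j => by
          have h1 := hc30 i
          have h2 := hx i.succ j.succ
          have h3 := hy1 j.succ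
          have h4 : c i * y j.succ ≤ 30 * (2 * B) := Nat.mul_le_mul h1 h3
          show x i.succ j.succ + c i * y j.succ ≤ _
          omega) (by rw [mul_assoc, mul_comm 61, ← pow_succ]; exact hB)
      rw [det_elim _ (fun i => (c i : ZMod 31))]
      · rw [ZMod.natCast_mod, Nat.cast_mul, ZMod.natCast_mod, ← ih]
        simp only [Matrix.of_apply, Fin.cons_zero, Fin.cons_succ]
        push_cast
        rfl
      · intro i
        simp only [Matrix.of_apply, Fin.cons_zero, Fin.cons_succ]
        have h1 : (((x i.succ 0 + c i * y 0 : ℕ)) : ZMod 31) = 0 := by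
          rw [ZMod.natCast_eq_zero_iff]
          refine Nat.dvd_of_mod_eq_zero ?_
          have h2 : (c i * y 0) % 31 = (31 - x i.succ 0 % 31) % 31 := by
            rw [hc]
            simp only
            have h3 : y 0 * iv % 31 = 1 := by rwa [Nat.mod_mul_mod] at hi1
            rw [Nat.mod_mul_mod, Nat.mul_assoc, Nat.mul_mod, mul_comm iv, h3, mul_one, Nat.mod_mod]
          omega
        push_cast at h1
        exact h1

end Helper63.Cube7
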