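import Pool.Agent.Helper67.Cube6.Assemble
import Pool.Agent.Helper67.CubeHad
import Pool.Agent.Helper63.Cube7.Elim

/-!
# Determinant and number of exterior facets of a packed vertex simplex of the 6-cube
-/

set_option autoImplicit false

namespace Helper63.Cube7

open Helper67.Cube Helper67.Cube6

/-- `∑ j < 6, 2 ^ (47 j + 48)` -/
def M47 : ℕ := 0x80000000000100000000000200000000000400000000000800000000001000000000000

/-- `∑ j < 6, 2 ^ (48 j + 48)` -/
def MSK : ℕ := 0x1000000000001000000000001000000000001000000000001000000000001000000000000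

/-- the packed bordered row of a vertex code -/
def rowE (v : ℕ) : ℕ := Nat.add 1 (Nat.land (Nat.mul v M47) MSK)

/-- the bordered vertex -/
def bv (v : ℕ) : Fin 7 → ℕ := Fin.cons 1 (fun j : Fin 6 => (v >>> (j : ℕ)) % 2)

/-- the absolute value of the determinant -/
def detE (c : ℕ) : ℕ :=
  force (elim 7 [rowE (vc c 0), rowE (vc c 1), rowE (vc c 2), rowE (vc c 3), rowE (vc c 4),
    rowE (vc c 5), rowE (vc c 6)]) fun e => ifz (Nat.sub e 15) e (Nat.sub 31 e)

/-- one if the digit is 0, 1, 6 or 7 -/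
def tab (s : ℕ) : ℕ := Nat.mod (Nat.shiftRight 195 s) 2

/-- the number of exterior facets -/
def kkE (c : ℕ) : ℕ :=
  force (Nat.add (rowE (vc c 0)) (Nat.add (rowE (vc c 1)) (Nat.add (rowE (vc c 2))
    (Nat.add (rowE (vc c 3)) (Nat.add (rowE (vc c 4)) (Nat.add (rowE (vc c 5))
      (rowE (vc c 6)))))))) fun S =>
    Nat.add (tab (Nat.mod (Nat.shiftRight S 48) 8)) (Nat.add (tab (Nat.mod (Nat.shiftRight S 96) 8))
    (Nat.add (tab (Nat.mod (Nat.shiftRight S 144) 8)) (Nat.add (tab (Nat.mod (Nat.shiftRight S 192) 8))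
    (Nat.add (tab (Nat.mod (Nat.shiftRight S 240) 8)) (tab (Nat.mod (Nat.shiftRight S 288) 8))))))

lemma rowE_eq : ∀ v < 256, rowE v = pkv 7 (bv v) := by decide +kernel

lemma vc_lt (c q : ℕ) : vc c q < 256 := Nat.mod_lt _ (by norm_num)

/-- the matrix of the bordered vertices -/
def xm (c : ℕ) : Fin 7 → Fin 7 → ℕ := fun q => bv (vc c q)

lemma xm_le (c : ℕ) (i j : Fin 7) : xm c i j ≤ 1 := by
  unfold xm bv
  refine Fin.cases ?_ (fun j => ?_) j
  · exact le_rfl
  · rw [Fin.cons_succ]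
    omega

lemma rows_eq (c : ℕ) : [rowE (vc c 0), rowE (vc c 1), rowE (vc c 2), rowE (vc c 3), rowE (vc c 4),
    rowE (vc c 5), rowE (vc c 6)] = List.ofFn fun i => pkv 7 (xm c i) := by
  rw [rowE_eq _ (vc_lt c 0), rowE_eq _ (vc_lt c 1), rowE_eq _ (vc_lt c 2), rowE_eq _ (vc_lt c 3),
    rowE_eq _ (vc_lt c 4), rowE_eq _ (vc_lt c 5), rowE_eq _ (vc_lt c 6)]
  simp only [List.ofFn_succ, List.ofFn_zero]
  rfl

lemma det_eq (c : ℕ) : (bord (fun q : Fin 7 => vtx 6 (vc c q))).det =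
    (((Matrix.of fun i j => ((xm c i j : ℕ) : ℤ)).det : ℤ) : ℝ) := by
  rw [Int.cast_det]
  congr 1
  ext i j
  refine Fin.cases ?_ (fun j => ?_) j
  · simp [bord, xm, bv]
  · show (((vc c i >>> (j : ℕ)) % 2 : ℕ) : ℝ) = ((((vc c i >>> (j : ℕ)) % 2 : ℕ) : ℤ) : ℝ)
    rw [Int.cast_natCast]

lemma rep_bool (c : ℕ) (i : Fin 7) (j : Fin 6) :
    vtx 6 (vc c i) j = 0 ∨ vtx 6 (vc c i) j = 1 := by
  unfold vtx
  rcases Nat.mod_two_eq_zero_or_one (vc c i >>> (j : ℕ)) with h | h <;> rw [h] <;> simp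

theorem vdet_rep (c : ℕ) : vdet (fun q : Fin 7 => vtx 6 (vc c q)) = detE c := by
  have h14 : vdet (fun q : Fin 7 => vtx 6 (vc c q)) ≤ (14 : ℕ) :=
    (vdet_le_maxDet_of_bool _ (rep_bool c)).trans (Nat.cast_le.2 maxDet_six')
  set z : ℤ := (Matrix.of fun i j => ((xm c i j : ℕ) : ℤ)).det with hz
  have hv : vdet (fun q : Fin 7 => vtx 6 (vc c q)) = ((|z| : ℤ) : ℝ) := by
    rw [vdet, det_eq, Int.cast_abs]
  rw [hv] at h14 ⊢
  have h15 : |z| ≤ 14 := by exact_mod_cast h14
  have hmod : (z : ZMod 31) = ((elim 7 [rowE (vc c 0), rowE (vc c 1), rowE (vc c 2),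
      rowE (vc c 3), rowE (vc c 4), rowE (vc c 5), rowE (vc c 6)] : ℕ) : ZMod 31) := by
    rw [rows_eq, ← elim_spec 7 (xm c) 1 (xm_le c) (by norm_num), hz, Int.cast_det]
    congr 1
  have hlt : elim 7 [rowE (vc c 0), rowE (vc c 1), rowE (vc c 2), rowE (vc c 3), rowE (vc c 4),
      rowE (vc c 5), rowE (vc c 6)] < 31 := by
    rw [elim_succ]
    split_ifs
    all_goals first | exact Nat.mod_lt _ (by norm_num) | norm_num
  have hd : detE c = if elim 7 [rowE (vc c 0), rowE (vc c 1), rowE (vc c 2), rowE (vc c 3),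
      rowE (vc c 4), rowE (vc c 5), rowE (vc c 6)] - 15 = 0 then elim 7 [rowE (vc c 0),
      rowE (vc c 1), rowE (vc c 2), rowE (vc c 3), rowE (vc c 4), rowE (vc c 5), rowE (vc c 6)] else
      31 - elim 7 [rowE (vc c 0), rowE (vc c 1), rowE (vc c 2), rowE (vc c 3), rowE (vc c 4),
      rowE (vc c 5), rowE (vc c 6)] := by
    unfold detE
    rw [force_eq, ifz_eq]
    rfl
  rw [hd]
  generalize elim 7 [rowE (vc c 0), rowE (vc c 1), rowE (vc c 2), rowE (vc c 3), rowE (vc c 4),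
    rowE (vc c 5), rowE (vc c 6)] = e at hmod hlt
  have h1 : ((31 : ℕ) : ℤ) ∣ z - (e : ℤ) := by
    rw [← ZMod.intCast_zmod_eq_zero_iff_dvd]
    push_cast
    rw [hmod, sub_self]
  obtain ⟨k, hk⟩ := h1
  have h2 : |z| = ((if e - 15 = 0 then e else 31 - e : ℕ) : ℤ) := by
    rw [abs_le] at h15
    split_ifs with h3
    · have hk0 : k = 0 := by push_cast at hk; omega
      rw [hk0] at hk
      have : z = (e : ℤ) := by omega
      rw [this, abs_of_nonneg (by positivity)]
    · have hk0 : k = -1 := by push_cast at hk; omega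
      rw [hk0] at hk
      have : z = -((31 - e : ℕ) : ℤ) := by omega
      rw [this, abs_neg, abs_of_nonneg (by positivity)]
  rw [h2, Int.cast_natCast]

/-! ### Exterior facets -/

lemma tab_bool : ∀ b : Fin 7 → Bool, (∃ a : Bool, ∃ i, ∀ i', i' ≠ i → b i' = a) ↔
    tab (∑ i, (b i).toNat) = 1 := by decide +kernel

lemma tab_le (s : ℕ) : tab s = 0 ∨ tab s = 1 := Nat.mod_two_eq_zero_or_one _

/-- the number of ones in a column -/
def colS (c : ℕ) (j : Fin 6) : ℕ := ∑ q : Fin 7, (vc c q >>> (j : ℕ)) % 2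

lemma ext_rep (c : ℕ) (j : Fin 6) : Helper67.Cube.Ext (fun q : Fin 7 => vtx 6 (vc c q)) j ↔
    tab (colS c j) = 1 := by
  have h0 : colS c j = ∑ i : Fin 7, (decide ((vc c i >>> (j : ℕ)) % 2 = 1)).toNat := by
    unfold colS
    refine Finset.sum_congr rfl fun i _ => ?_
    rcases Nat.mod_two_eq_zero_or_one (vc c i >>> (j : ℕ)) with h | h <;> rw [h] <;> rfl
  rw [h0, ← tab_bool]
  unfold Helper67.Cube.Ext
  constructor
  · rintro ⟨a, ha, i, hi⟩
    refine ⟨decide (a = 1), i, fun i' hi' => ?_⟩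
    have h1 : (((vc c i' >>> (j : ℕ)) % 2 : ℕ) : ℝ) = a := hi i' hi'
    rw [← h1]
    generalize (vc c i' >>> (j : ℕ)) % 2 = t at h1
    have h2 : t = 0 ∨ t = 1 := by
      rcases ha with rfl | rfl
      · exact Or.inl (by exact_mod_cast h1)
      · exact Or.inr (by exact_mod_cast h1)
    rcases h2 with rfl | rfl <;> simp
  · rintro ⟨a, i, hi⟩
    refine ⟨if a then 1 else 0, by cases a <;> simp, i, fun i' hi' => ?_⟩
    have h1 := hi i' hi'
    show (((vc c i' >>> (j : ℕ)) % 2 : ℕ) : ℝ) = _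
    rw [← h1]
    rcases Nat.mod_two_eq_zero_or_one (vc c i' >>> (j : ℕ)) with h | h
    · rw [h]
      simp
    · rw [h]
      simp

lemma pkv_field : ∀ (n : ℕ) (x : Fin n → ℕ), (∀ j, x j < 8) → ∀ j : Fin n,
    (pkv n x >>> (48 * (j : ℕ))) % 8 = x j
  | 0, _, _, j => j.elim0
  | n+1, x, hx, j => by
    refine Fin.cases ?_ (fun j => ?_) j
    · show (x 0 + 281474976710656 * pkv n (fun j => x j.succ)) >>> (48 * 0) % 8 = x 0
      rw [mul_zero, Nat.shiftRight_zero]
      have := hx 0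
      omega
    · show (x 0 + 281474976710656 * pkv n (fun j => x j.succ)) >>> (48 * ((j : ℕ) + 1)) % 8 = _
      have h1 : (x 0 + 281474976710656 * pkv n (fun j => x j.succ)) >>> 48 =
          pkv n (fun j => x j.succ) := by
        rw [Nat.shiftRight_eq_div_pow]
        have := hx 0
        omega
      rw [mul_add, mul_one, Nat.add_comm (48 * (j : ℕ)) 48, Nat.shiftRight_add, h1]
      exact pkv_field n (fun j => x j.succ) (fun j => hx j.succ) j

lemma pkv_add (n : ℕ) (x y : Fin n → ℕ) : pkv n x + pkv n y = pkv n (fun j => x j + y j) := by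
  have := pkv_add_mul n x y 1
  simpa only [one_mul] using this

lemma field_sum (c : ℕ) (j : Fin 6) : (rowE (vc c 0) + (rowE (vc c 1) + (rowE (vc c 2) +
    (rowE (vc c 3) + (rowE (vc c 4) + (rowE (vc c 5) + rowE (vc c 6))))))) >>>
      (48 * ((j : ℕ) + 1)) % 8 = colS c j := by
  rw [rowE_eq _ (vc_lt c 0), rowE_eq _ (vc_lt c 1), rowE_eq _ (vc_lt c 2), rowE_eq _ (vc_lt c 3),
    rowE_eq _ (vc_lt c 4), rowE_eq _ (vc_lt c 5), rowE_eq _ (vc_lt c 6)]
  simp only [pkv_add]
  have hb : ∀ (v : ℕ) (j : Fin 7), bv v j ≤ 1 := fun v j => by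
    unfold bv
    refine Fin.cases le_rfl (fun j => ?_) j
    rw [Fin.cons_succ]
    omega
  have h := pkv_field 7 (fun j => bv (vc c 0) j + (bv (vc c 1) j + (bv (vc c 2) j + (bv (vc c 3) j +
    (bv (vc c 4) j + (bv (vc c 5) j + bv (vc c 6) j)))))) (fun j => by
      have h0 := hb (vc c 0) j
      have h1 := hb (vc c 1) j
      have h2 := hb (vc c 2) j
      have h3 := hb (vc c 3) j
      have h4 := hb (vc c 4) j
      have h5 := hb (vc c 5) j
      have h6 := hb (vc c 6) j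
      omega) j.succ
  rw [Fin.val_succ] at h
  rw [h]
  unfold colS bv
  simp only [Fin.cons_succ, Fin.sum_univ_succ, Fin.sum_univ_zero]
  simp only [Fin.val_zero, Fin.val_succ, zero_add, Nat.reduceAdd, add_zero]

lemma kk_rep (c : ℕ) : kk (fun q : Fin 7 => vtx 6 (vc c q)) = kkE c := by
  classical
  have h1 : kkE c = ∑ j : Fin 6, tab (colS c j) := by
    have hf := field_sum c
    unfold kkE
    rw [force_eq]
    simp only [Nat.add_eq]
    generalize rowE (vc c 0) + (rowE (vc c 1) + (rowE (vc c 2) + (rowE (vc c 3) + (rowE (vc c 4) +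
      (rowE (vc c 5) + rowE (vc c 6)))))) = S at hf
    have e0 : Nat.mod (Nat.shiftRight S 48) 8 = colS c 0 := hf 0
    have e1 : Nat.mod (Nat.shiftRight S 96) 8 = colS c 1 := hf 1
    have e2 : Nat.mod (Nat.shiftRight S 144) 8 = colS c 2 := hf 2
    have e3 : Nat.mod (Nat.shiftRight S 192) 8 = colS c 3 := hf 3
    have e4 : Nat.mod (Nat.shiftRight S 240) 8 = colS c 4 := hf 4
    have e5 : Nat.mod (Nat.shiftRight S 288) 8 = colS c 5 := hf 5
    rw [e0, e1, e2, e3, e4, e5, Fin.sum_univ_six]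
    ring
  rw [h1, kk, Finset.card_eq_sum_ones, Finset.sum_filter]
  refine Finset.sum_congr rfl fun j _ => ?_
  by_cases h : tab (colS c j) = 1
  · rw [if_pos ((ext_rep c j).2 h), h]
  · rw [if_neg (fun h' => h ((ext_rep c j).1 h'))]
    rcases tab_le (colS c j) with h' | h'
    · exact h'.symm
    · exact absurd h' h

/-! ### Invariance -/

variable {d : ℕ}

lemma ext_gmap (g : Equiv.Perm (Fin d) × (Fin d → Bool)) {w : Fin (d+1) → Fin d → ℝ} {j : Fin d}
    (h : Helper67.Cube.Ext w (g.1 j)) : Helper67.Cube.Ext (fun q => gmap g (w q)) j := by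
  obtain ⟨a, ha, i, hi⟩ := h
  by_cases hg : g.2 j
  · refine ⟨1 - a, by rcases ha with rfl | rfl <;> simp, i, fun i' hi' => ?_⟩
    simp only [gmap, hg, if_true, hi i' hi']
  · refine ⟨a, ha, i, fun i' hi' => ?_⟩
    simp only [gmap, hg, hi i' hi']
    simp

lemma kk_gmap_le (g : Equiv.Perm (Fin d) × (Fin d → Bool)) (w : Fin (d+1) → Fin d → ℝ) :
    kk w ≤ kk (fun q => gmap g (w q)) := by
  classical
  unfold kk
  refine Finset.card_le_card_of_injOn (fun j => g.1.symm j) (fun j hj => ?_)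
    (fun a _ b _ h => g.1.symm.injective h)
  rw [Finset.mem_coe, Finset.mem_filter] at hj ⊢
  exact ⟨Finset.mem_univ _, ext_gmap g (by rw [Equiv.apply_symm_apply]; exact hj.2)⟩

lemma kk_comp (σ : Equiv.Perm (Fin (d+1))) (w : Fin (d+1) → Fin d → ℝ) :
    kk (fun q => w (σ q)) = kk w := by
  classical
  unfold kk
  congr 1
  refine Finset.filter_congr fun j _ => ?_
  constructor
  · rintro ⟨a, ha, i, hi⟩
    refine ⟨a, ha, σ i, fun i' hi' => ?_⟩
    have h1 : w (σ (σ.symm i')) j = a :=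
      hi (σ.symm i') (fun h => hi' (by rw [← h, Equiv.apply_symm_apply]))
    rwa [Equiv.apply_symm_apply] at h1
  · rintro ⟨a, ha, i, hi⟩
    refine ⟨a, ha, σ.symm i, fun i' hi' => hi _ (fun h => hi' (by rw [← h, Equiv.symm_apply_apply]))⟩

lemma vdet_comp (σ : Equiv.Perm (Fin (d+1))) (w : Fin (d+1) → Fin d → ℝ) :
    vdet (fun q => w (σ q)) = vdet w := by
  have h : bord (fun q => w (σ q)) = (bord w).submatrix σ id := by
    ext i j
    rfl
  rw [vdet, h, Matrix.det_permute, abs_mul, vdet]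
  rcases Int.units_eq_one_or (Equiv.Perm.sign σ) with h | h <;> rw [h] <;> simp

lemma vdet_gmap (g : Equiv.Perm (Fin d) × (Fin d → Bool)) (w : Fin (d+1) → Fin d → ℝ) :
    vdet (fun q => gmap g (w q)) = vdet w := by
  have h1 : edge (fun q => gmap g (w q)) = Matrix.of fun i j => (if g.2 j then (-1 : ℝ) else 1) *
      ((edge w).submatrix id g.1) i j := by
    ext i j
    simp only [edge, gmap, Matrix.of_apply, Matrix.submatrix_apply, id]
    split_ifs <;> ring
  rw [vdet, det_bord, h1, Matrix.det_mul_row, Matrix.det_permute', abs_mul, abs_mul, Finset.abs_prod,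
    vdet, det_bord]
  have h2 : ∏ j : Fin d, |(if g.2 j then (-1 : ℝ) else 1)| = 1 := by
    refine Finset.prod_eq_one fun j _ => ?_
    split_ifs <;> simp
  rw [h2, one_mul]
  rcases Int.units_eq_one_or (Equiv.Perm.sign g.1) with h | h <;> rw [h] <;> simp

lemma gmap_inj (g : Equiv.Perm (Fin d) × (Fin d → Bool)) {x y : Fin d → ℝ}
    (h : gmap g x = gmap g y) : x = y := by
  funext j
  have h1 := congrFun h (g.1.symm j)
  simp only [gmap, Equiv.apply_symm_apply] at h1
  split_ifs at h1 <;> linarith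

/-- the inverse symmetry -/
lemma exists_inv (g : Equiv.Perm (Fin d) × (Fin d → Bool)) :
    ∃ h : Equiv.Perm (Fin d) × (Fin d → Bool), ∀ x, gmap h (gmap g x) = x := by
  refine ⟨(g.1.symm, fun j => g.2 (g.1.symm j)), fun x => ?_⟩
  funext j
  simp only [gmap, Equiv.apply_symm_apply]
  split_ifs <;> ring

lemma kk_gmap (g : Equiv.Perm (Fin d) × (Fin d → Bool)) (w : Fin (d+1) → Fin d → ℝ) :
    kk (fun q => gmap g (w q)) = kk w := by
  refine le_antisymm ?_ (kk_gmap_le g w)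
  obtain ⟨h, hh⟩ := exists_inv g
  have := kk_gmap_le h (fun q => gmap g (w q))
  simpa only [hh] using this

/-- **determinant and number of exterior facets of a vertex simplex from the code of its class** -/
theorem detE_kkE {c : ℕ} {T : Fin 7 → Fin 6 → ℝ} (hT : AffineIndependent ℝ T)
    {g : Equiv.Perm (Fin 6) × (Fin 6 → Bool)}
    (hg : ∀ q, ∃ q' < 7, gmap g (T q) = vtx 6 (vc c q')) :
    vdet T = detE c ∧ kk T = kkE c := by
  choose s hs1 hs2 using hg
  have hinj : Function.Injective (fun q : Fin 7 => (⟨s q, hs1 q⟩ : Fin 7)) := by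
    intro a b hab
    have h1 : s a = s b := congrArg Fin.val hab
    refine hT.injective (gmap_inj g ?_)
    rw [hs2 a, hs2 b, h1]
  obtain ⟨σ, hσ⟩ : ∃ σ : Equiv.Perm (Fin 7), ∀ q, (σ q : ℕ) = s q :=
    ⟨Equiv.ofBijective _ (Finite.injective_iff_bijective.1 hinj), fun q => rfl⟩
  have h2 : (fun q => gmap g (T q)) = fun q : Fin 7 => (fun q' : Fin 7 => vtx 6 (vc c q')) (σ q) := by
    funext q
    show gmap g (T q) = vtx 6 (vc c (σ q))
    rw [hs2 q, hσ q]
  constructor
  · rw [← vdet_gmap g, h2, vdet_comp σ (fun q' : Fin 7 => vtx 6 (vc c q')), vdet_rep]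
  · rw [← kk_gmap g, h2, kk_comp σ (fun q' : Fin 7 => vtx 6 (vc c q')), kk_rep]

end Helper63.Cube7
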