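import Pool.Agent.Helper67.BS.Lift2
import Pool.Agent.Helper63.Cube7.DetE

/-!
# Invariance of the facet sum and the normal form of a simplex with a given exterior facet
-/

set_option autoImplicit false

namespace Helper63.Cube7

open Helper67.Cube Helper67.Cube6 Helper67.BS

/-- the weight does not depend on the order of the vertices and is invariant under the symmetries -/
def InvPhi {m : ℕ} (Φ : (Fin (m+1) → Fin m → ℝ) → ℝ) : Prop :=
  ∀ (g : Equiv.Perm (Fin m) × (Fin m → Bool)) (σ : Equiv.Perm (Fin (m+1)))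
    (w : Fin (m+1) → Fin m → ℝ), Φ (fun q => gmap g (w (σ q))) = Φ w

/-- the permutation induced on the complements of a point and of its image -/
lemma exists_ind {n : ℕ} (π : Equiv.Perm (Fin (n+1))) (j : Fin (n+1)) :
    ∃ e : Equiv.Perm (Fin n), ∀ k, π (j.succAbove k) = (π j).succAbove (e k) := by
  have h : ∀ k, ∃ k', (π j).succAbove k' = π (j.succAbove k) := fun k =>
    Fin.exists_succAbove_eq fun hc => Fin.succAbove_ne j k (π.injective hc)
  choose e he using h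
  have hinj : Function.Injective e := by
    intro k1 k2 h12
    have h3 : π (j.succAbove k1) = π (j.succAbove k2) := by rw [← he k1, ← he k2, h12]
    exact Fin.succAbove_right_injective (π.injective h3)
  exact ⟨Equiv.ofBijective e (Finite.injective_iff_bijective.1 hinj), fun k => (he k).symm⟩

/-- extension of a permutation of the complements of two points -/
lemma exists_extp {n : ℕ} (p j : Fin (n+1)) (e : Equiv.Perm (Fin n)) :
    ∃ π : Equiv.Perm (Fin (n+1)), π p = j ∧ ∀ k, π (p.succAbove k) = j.succAbove (e k) :=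
  ⟨(finSuccEquiv' p).trans (e.optionCongr.trans (finSuccEquiv' j).symm), by simp,
    fun k => by simp⟩

/-- the apex over an exterior facet is unique -/
lemma apex_unique {m : ℕ} {w : Fin (m+2) → Fin (m+1) → ℝ} (hw : AffineIndependent ℝ w)
    {j : Fin (m+1)} {a : ℝ} {i1 i2 : Fin (m+2)} (h1 : ∀ i', i' ≠ i1 → w i' j = a)
    (h2 : ∀ i', i' ≠ i2 → w i' j = a) : i1 = i2 := by
  by_contra hne
  obtain ⟨i, hi⟩ := exists_ne_of_affineIndependent hw j a
  by_cases h : i = i1
  · exact hi (h2 i (by rw [h]; exact hne))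
  · exact hi (h1 i h)

lemma fphi_eq {m : ℕ} {Φ : (Fin (m+1) → Fin m → ℝ) → ℝ} {w : Fin (m+2) → Fin (m+1) → ℝ}
    (hw : AffineIndependent ℝ w) {j : Fin (m+1)} {a : ℝ} {i : Fin (m+2)}
    (h : ∀ i', i' ≠ i → w i' j = a) : fphi Φ w j a = Φ (rem w i j) := by
  have hE : ExtAt w j a := ⟨i, h⟩
  unfold fphi
  rw [dif_pos hE, apex_unique hw hE.choose_spec h]

/-- affine independence of the image -/
lemma aff_sym {d : ℕ} (g : Equiv.Perm (Fin d) × (Fin d → Bool))
    (σ : Equiv.Perm (Fin (d+1))) {w : Fin (d+1) → Fin d → ℝ} (hw : AffineIndependent ℝ w) :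
    AffineIndependent ℝ (fun q => gmap g (w (σ q))) := by
  refine affineIndependent_of_det fun h0 => ?_
  have h1 : vdet (fun q => gmap g (w (σ q))) = vdet w :=
    (vdet_gmap g (fun q => w (σ q))).trans (vdet_comp σ w)
  have h2 : vdet (fun q => gmap g (w (σ q))) = 0 := by unfold vdet; rw [h0, abs_zero]
  rw [h2] at h1
  exact det_bord_ne_zero hw (abs_eq_zero.1 h1.symm)

/-- the weight of a facet of the image -/
lemma fphi_sym {m : ℕ} {Φ : (Fin (m+1) → Fin m → ℝ) → ℝ} (hΦ : InvPhi Φ)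
    (g : Equiv.Perm (Fin (m+1)) × (Fin (m+1) → Bool)) (σ : Equiv.Perm (Fin (m+2)))
    {w : Fin (m+2) → Fin (m+1) → ℝ} (hw : AffineIndependent ℝ w) (j : Fin (m+1)) (a : ℝ) :
    fphi Φ (fun q => gmap g (w (σ q))) j a = fphi Φ w (g.1 j) (if g.2 j then 1 - a else a) := by
  have hw' := aff_sym g σ hw
  by_cases h : ExtAt (fun q => gmap g (w (σ q))) j a
  · obtain ⟨i, hi⟩ := h
    have hi2 : ∀ i', i' ≠ σ i → w i' (g.1 j) = if g.2 j then 1 - a else a := by
      intro i' hi'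
      have h1 : gmap g (w (σ (σ.symm i'))) j = a :=
        hi (σ.symm i') (fun hc => hi' (by rw [← hc, Equiv.apply_symm_apply]))
      rw [Equiv.apply_symm_apply] at h1
      unfold gmap at h1
      split_ifs at h1 ⊢ <;> linarith
    rw [fphi_eq hw' hi, fphi_eq hw hi2]
    obtain ⟨e, he⟩ := exists_ind g.1 j
    obtain ⟨s, hs⟩ := exists_ind σ i
    have h2 : rem (fun q => gmap g (w (σ q))) i j =
        fun q => gmap (e, fun k => g.2 (j.succAbove k)) (rem w (σ i) (g.1 j) (s q)) := by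
      funext q k
      simp only [rem, gmap]
      rw [he k, hs q]
    rw [h2]
    exact hΦ _ _ _
  · have h' : ¬ ExtAt w (g.1 j) (if g.2 j then 1 - a else a) := by
      rintro ⟨i, hi⟩
      refine h ⟨σ.symm i, fun i' hi' => ?_⟩
      have h1 := hi (σ i') (fun hc => hi' (by rw [← hc, Equiv.symm_apply_apply]))
      show gmap g (w (σ i')) j = a
      unfold gmap
      rw [h1]
      split_ifs <;> ring
    unfold fphi
    rw [dif_neg h, dif_neg h']

/-- (i) invariance of the sum over the exterior facets -/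
theorem sum_fphi_inv {m : ℕ} (_hm : 1 ≤ m) {Φ : (Fin (m+1) → Fin m → ℝ) → ℝ} (hΦ : InvPhi Φ)
    (g : Equiv.Perm (Fin (m+1)) × (Fin (m+1) → Bool)) (σ : Equiv.Perm (Fin (m+2)))
    {w : Fin (m+2) → Fin (m+1) → ℝ} (hw : AffineIndependent ℝ w) :
    ∑ j, (fphi Φ (fun q => gmap g (w (σ q))) j 0 + fphi Φ (fun q => gmap g (w (σ q))) j 1) =
      ∑ j, (fphi Φ w j 0 + fphi Φ w j 1) := by
  rw [← Equiv.sum_comp g.1 (fun j => fphi Φ w j 0 + fphi Φ w j 1)]
  refine Finset.sum_congr rfl fun j _ => ?_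
  rw [fphi_sym hΦ g σ hw j 0, fphi_sym hΦ g σ hw j 1]
  by_cases hg : g.2 j
  · simp only [hg, if_true, sub_zero, sub_self]
    exact add_comm _ _
  · simp only [hg]
    rfl

/-- the symmetry that moves the facet `(i, j)` to the facet `(r, p)` and is `g` on it -/
lemma nf_core {m : ℕ} {w : Fin (m+2) → Fin (m+1) → ℝ} (hw : AffineIndependent ℝ w)
    (hv : ∀ i j, w i j = 0 ∨ w i j = 1) {i : Fin (m+2)} {j : Fin (m+1)} {a : ℝ}
    (ha : a = 0 ∨ a = 1) (h : ∀ i', i' ≠ i → w i' j = a)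
    (g : Equiv.Perm (Fin m) × (Fin m → Bool)) (σ0 : Equiv.Perm (Fin (m+1)))
    (r : Fin (m+2)) (p : Fin (m+1)) :
    ∃ (G : Equiv.Perm (Fin (m+1)) × (Fin (m+1) → Bool)) (σ : Equiv.Perm (Fin (m+2))),
      gmap G (w (σ r)) p = 1 ∧
      (∀ k, gmap G (w (σ r)) (p.succAbove k) = gmap g (fun k' => w i (j.succAbove k')) k) ∧
      (∀ q, gmap G (w (σ (r.succAbove q))) p = 0) ∧
      ∀ q k, gmap G (w (σ (r.succAbove q))) (p.succAbove k) = gmap g (rem w i j (σ0 q)) k := by
  classical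
  obtain ⟨π, hπ1, hπ2⟩ := exists_extp p j g.1
  obtain ⟨σ, hσ1, hσ2⟩ := exists_extp r i σ0
  have hij : w i j ≠ a := by
    intro hc
    obtain ⟨i', hi'⟩ := exists_ne_of_affineIndependent hw j a
    by_cases h1 : i' = i
    · rw [h1] at hi'
      exact hi' hc
    · exact hi' (h i' h1)
  refine ⟨(π, p.insertNth (α := fun _ => Bool) (decide (a = 1)) g.2), σ, ?_, fun k => ?_,
    fun q => ?_, fun q k => ?_⟩
  · simp only [gmap, Fin.insertNth_apply_same, hπ1, hσ1, decide_eq_true_eq]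
    rcases ha with rfl | rfl
    · rw [if_neg (by norm_num)]
      exact (hv i j).resolve_left hij
    · rw [if_pos rfl, (hv i j).resolve_right hij, sub_zero]
  · simp only [gmap, Fin.insertNth_apply_succAbove, hπ2, hσ1]
  · simp only [gmap, Fin.insertNth_apply_same, hπ1, hσ2, decide_eq_true_eq]
    rw [h _ (Fin.succAbove_ne _ _)]
    rcases ha with rfl | rfl
    · rw [if_neg (by norm_num)]
    · rw [if_pos rfl, sub_self]
  · simp only [gmap, Fin.insertNth_apply_succAbove, hπ2, hσ2, rem]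

/-- the vertices of the facet in the order of the code -/
lemma exists_order {T : Fin 7 → Fin 6 → ℝ} (hT : AffineIndependent ℝ T) {c : ℕ}
    {g : Equiv.Perm (Fin 6) × (Fin 6 → Bool)}
    (hg : ∀ q, ∃ q' < 7, gmap g (T q) = vtx 6 (vc c q')) :
    ∃ σ0 : Equiv.Perm (Fin 7), ∀ q : Fin 7, gmap g (T (σ0 q)) = vtx 6 (vc c q) := by
  choose s hs1 hs2 using hg
  have hinj : Function.Injective (fun q : Fin 7 => (⟨s q, hs1 q⟩ : Fin 7)) := by
    intro a b hab
    have h1 : s a = s b := congrArg Fin.val hab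
    refine hT.injective (gmap_inj g ?_)
    rw [hs2 a, hs2 b, h1]
  obtain ⟨σ, hσ⟩ : ∃ σ : Equiv.Perm (Fin 7), ∀ q, (σ q : ℕ) = s q :=
    ⟨Equiv.ofBijective _ (Finite.injective_iff_bijective.1 hinj), fun q => rfl⟩
  refine ⟨σ.symm, fun q => ?_⟩
  rw [hs2, ← hσ, Equiv.apply_symm_apply]

/-- the codes of the vertices of the pyramid over `c` with apex `v` -/
def sc (c v : ℕ) (q : Fin 8) : ℕ := if (q : ℕ) < 7 then vc c q % 64 else v + 64

lemma bit_add : ∀ v < 64, ∀ k < 6, ((v + 64) >>> k) % 2 = (v >>> k) % 2 := by decide +kernel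

lemma bit_add6 : ∀ v < 64, ((v + 64) >>> 6) % 2 = 1 := by decide +kernel

lemma bit_mod : ∀ u < 256, ∀ k < 6, ((u % 64) >>> k) % 2 = (u >>> k) % 2 := by decide +kernel

lemma bit_mod6 : ∀ u < 256, ((u % 64) >>> 6) % 2 = 0 := by decide +kernel

/-- (ii) normal form -/
theorem nf1 {w : Fin 8 → Fin 7 → ℝ} (hw : AffineIndependent ℝ w)
    (hv : ∀ i j, w i j = 0 ∨ w i j = 1) {i : Fin 8} {j : Fin 7} {a : ℝ} (ha : a = 0 ∨ a = 1)
    (h : ∀ i', i' ≠ i → w i' j = a) {c : ℕ} {g : Equiv.Perm (Fin 6) × (Fin 6 → Bool)}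
    (hg : ∀ q, ∃ q' < 7, gmap g (rem w i j q) = vtx 6 (vc c q')) :
    ∃ v < 64, ∃ (G : Equiv.Perm (Fin 7) × (Fin 7 → Bool)) (σ : Equiv.Perm (Fin 8)),
      ∀ q : Fin 8, gmap G (w (σ q)) = vtx 7 (sc c v q) := by
  obtain ⟨σ0, hσ0⟩ := exists_order (aff_rem hw h) hg
  obtain ⟨v, hv1, hv2⟩ := exists_code (gmap g (fun k' => w i (j.succAbove k')))
    (gmap_bool g fun k => hv _ _)
  have hv64 : v < 64 := hv1
  obtain ⟨G, σ, h1, h2, h3, h4⟩ := nf_core hw hv ha h g σ0 (Fin.last 7) (Fin.last 6)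
  refine ⟨v, hv64, G, σ, fun q => ?_⟩
  refine Fin.lastCases ?_ (fun q => ?_) q
  · have hsc : sc c v (Fin.last 7) = v + 64 := by unfold sc; rw [if_neg (by simp)]
    rw [hsc]
    funext l
    refine Fin.lastCases ?_ (fun k => ?_) l
    · rw [h1]
      show (1 : ℝ) = ((((v + 64) >>> 6) % 2 : ℕ) : ℝ)
      rw [bit_add6 v hv64, Nat.cast_one]
    · have h5 := h2 k
      rw [Fin.succAbove_last] at h5
      rw [h5, ← hv2]
      show (((v >>> (k : ℕ)) % 2 : ℕ) : ℝ) = ((((v + 64) >>> (k : ℕ)) % 2 : ℕ) : ℝ)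
      rw [bit_add v hv64 k k.2]
  · have hsc : sc c v q.castSucc = vc c q % 64 := by
      unfold sc
      rw [Fin.val_castSucc, if_pos q.2]
    have hu : vc c q < 256 := vc_lt c q
    rw [hsc]
    funext l
    refine Fin.lastCases ?_ (fun k => ?_) l
    · have h5 := h3 q
      rw [Fin.succAbove_last] at h5
      rw [h5]
      show (0 : ℝ) = ((((vc c q % 64) >>> 6) % 2 : ℕ) : ℝ)
      rw [bit_mod6 _ hu, Nat.cast_zero]
    · have h5 := h4 q k
      rw [Fin.succAbove_last, Fin.succAbove_last] at h5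
      rw [h5, hσ0 q]
      show (((vc c q >>> (k : ℕ)) % 2 : ℕ) : ℝ) = ((((vc c q % 64) >>> (k : ℕ)) % 2 : ℕ) : ℝ)
      rw [bit_mod _ hu k k.2]

end Helper63.Cube7
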